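import Mathlib

set_option autoImplicit false

namespace Pool.Agent.Results.MP_5207c4_ag.Q1

open Polynomial Filter Topology

noncomputable def poly {d : ℕ} (a : Fin d → ℝ) : ℝ[X] := X ^ d + ∑ j : Fin d, C (a j) * X ^ (j : ℕ)

def R4 {d : ℕ} (τ : Fin d → ℕ × ℕ) : Set (Fin d → ℝ) :=
  {a | (∀ j, a j ≠ 0) ∧ ∀ l : Fin d,
    (∀ x, (derivative^[l] (poly a)).IsRoot x → ¬ (derivative^[l + 1] (poly a)).IsRoot x) ∧
    {x : ℝ | 0 < x ∧ (derivative^[l] (poly a)).IsRoot x}.ncard = (τ l).1 ∧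
    {x : ℝ | x < 0 ∧ (derivative^[l] (poly a)).IsRoot x}.ncard = (τ l).2}

def D (a : Fin 4 → ℝ) : ℕ → ℝ → ℝ
  | 0, x => x ^ 4 + a 3 * x ^ 3 + a 2 * x ^ 2 + a 1 * x + a 0
  | 1, x => 4 * x ^ 3 + 3 * a 3 * x ^ 2 + 2 * a 2 * x + a 1
  | 2, x => 12 * x ^ 2 + 6 * a 3 * x + 2 * a 2
  | 3, x => 24 * x + 6 * a 3
  | _, _ => 24

theorem ev (a : Fin 4 → ℝ) (l : ℕ) (hl : l ≤ 4) (x : ℝ) :
    (derivative^[l] (poly a)).IsRoot x ↔ D a l x = 0 := by
  have : eval x (derivative^[l] (poly a)) = D a l x := by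
    interval_cases l <;> simp [poly, Fin.sum_univ_four, D] <;> ring
  rw [IsRoot.def, this]

def tau : Fin 4 → ℕ × ℕ := ![(2, 0), (3, 0), (2, 0), (1, 0)]

theorem mem_iff (a : Fin 4 → ℝ) : a ∈ R4 tau ↔ (∀ j, a j ≠ 0) ∧ ∀ l : Fin 4,
    (∀ x, D a l x = 0 → ¬ D a (l + 1) x = 0) ∧ {x : ℝ | 0 < x ∧ D a l x = 0}.ncard = (tau l).1 ∧
    {x : ℝ | x < 0 ∧ D a l x = 0}.ncard = (tau l).2 := by
  refine and_congr Iff.rfl (forall_congr' fun l => ?_)
  simp only [ev a l (by omega), ev a (l + 1) (by omega)]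

theorem mk (a : Fin 4 → ℝ) (h : ∀ j, a j ≠ 0) (r1 r2 c1 c2 c3 m : ℝ)
    (p : 0 < r1 ∧ r1 < r2 ∧ 0 < c1 ∧ c1 < c2 ∧ c2 < c3 ∧ 7 ≤ m)
    (h0 : ∀ x, D a 0 x = 0 ↔ x = r1 ∨ x = r2) (h1 : ∀ x, D a 1 x = 0 ↔ x = c1 ∨ x = c2 ∨ x = c3)
    (h2 : ∀ x, D a 2 x = 12 * ((x - m) ^ 2 - 43)) (h3 : ∀ x, D a 3 x = 24 * (x - m))
    (n0 : D a 1 r1 ≠ 0 ∧ D a 1 r2 ≠ 0) (n1 : D a 2 c1 ≠ 0 ∧ D a 2 c2 ≠ 0 ∧ D a 2 c3 ≠ 0) :
    a ∈ R4 tau := by
  obtain ⟨p1, p2, p3, p4, p5, p6⟩ := p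
  have s2 : Real.sqrt 43 ^ 2 = 43 := Real.sq_sqrt (by norm_num)
  have s0 : 0 < Real.sqrt 43 := by positivity
  have s7 : Real.sqrt 43 < 7 := by nlinarith
  have h2' : ∀ x, D a 2 x = 0 ↔ x = m - Real.sqrt 43 ∨ x = m + Real.sqrt 43 := fun x => by
    have : D a 2 x = 12 * ((x - (m - Real.sqrt 43)) * (x - (m + Real.sqrt 43))) := by
      rw [h2]; linear_combination 12 * s2
    rw [this]; simp [sub_eq_zero]
  have h3' : ∀ x, D a 3 x = 0 ↔ x = m := fun x => by rw [h3]; simp [sub_eq_zero]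
  have key : ∀ (l : ℕ) (S : Set ℝ), (∀ x, D a l x = 0 ↔ x ∈ S) → (∀ x ∈ S, 0 < x) →
      {x : ℝ | 0 < x ∧ D a l x = 0} = S ∧ {x : ℝ | x < 0 ∧ D a l x = 0}.ncard = 0 := by
    intro l S e q
    refine ⟨Set.ext fun x => ⟨fun z => (e x).1 z.2, fun z => ⟨q x z, (e x).2 z⟩⟩, ?_⟩
    have : {x : ℝ | x < 0 ∧ D a l x = 0} = ∅ :=
      Set.eq_empty_of_forall_notMem fun x z => by linarith [z.1, q x ((e x).1 z.2)]
    rw [this, Set.ncard_empty]
  rw [mem_iff]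
  refine ⟨h, fun l => ?_⟩
  fin_cases l
  · have k := key 0 {r1, r2} h0 (by rintro x (rfl | rfl) <;> linarith)
    refine ⟨fun x hx => ?_, (congrArg Set.ncard k.1).trans (Set.ncard_pair p2.ne), k.2⟩
    rcases (h0 x).1 hx with rfl | rfl
    exacts [n0.1, n0.2]
  · have k := key 1 {c1, c2, c3} h1 (by rintro x (rfl | rfl | rfl) <;> linarith)
    refine ⟨fun x hx => ?_, (congrArg Set.ncard k.1).trans
      (Set.ncard_eq_three.2 ⟨_, _, _, p4.ne, (p4.trans p5).ne, p5.ne, rfl⟩), k.2⟩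
    rcases (h1 x).1 hx with rfl | rfl | rfl
    exacts [n1.1, n1.2.1, n1.2.2]
  · have k := key 2 {m - Real.sqrt 43, m + Real.sqrt 43} h2' (by rintro x (rfl | rfl) <;> linarith)
    refine ⟨fun x hx hy => ?_, (congrArg Set.ncard k.1).trans (Set.ncard_pair (by linarith)), k.2⟩
    have := (h3' x).1 hy
    rcases (h2' x).1 hx with e | e <;> linarith
  · have k := key 3 {m} h3' (by rintro x rfl; linarith)
    exact ⟨fun x _ => by simp [D], (congrArg Set.ncard k.1).trans (Set.ncard_singleton m), k.2⟩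

def A : Fin 4 → ℝ := ![17537, -19600, 2142, -80]
def B : Fin 4 → ℝ := ![6720, -352, 228, -36]

theorem A0 : A 0 = 17537 := rfl
theorem A1 : A 1 = -19600 := rfl
theorem A2 : A 2 = 2142 := rfl
theorem A3 : A 3 = -80 := rfl
theorem B0 : B 0 = 6720 := rfl
theorem B1 : B 1 = -352 := rfl
theorem B2 : B 2 = 228 := rfl
theorem B3 : B 3 = -36 := rfl

theorem A_mem : A ∈ R4 tau := by
  refine mk A (fun j => by fin_cases j <;> simp [A]) 1 19 7 25 28 20 (by norm_num) (fun x => ?_)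
    (fun x => ?_) (fun x => by simp [D, A]; ring) (fun x => by simp [D, A]; ring)
    (by norm_num [D, A2, A3, A1, A0]) (by norm_num [D, A2, A3, A1, A0])
  · have : D A 0 x = (x - 1) * ((x - 19) * ((x - 30) ^ 2 + 23)) := by simp [D, A]; ring
    have q : (x - 30) ^ 2 + 23 ≠ 0 := by positivity
    rw [this]; simp [sub_eq_zero, q]
  · have : D A 1 x = 4 * ((x - 7) * ((x - 25) * (x - 28))) := by simp [D, A]; ring
    rw [this]; simp [sub_eq_zero]

theorem B_mem : B ∈ R4 tau := by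
  refine mk B (fun j => by fin_cases j <;> simp [B]) 10 28 1 4 22 9 (by norm_num) (fun x => ?_)
    (fun x => ?_) (fun x => by simp [D, B]; ring) (fun x => by simp [D, B]; ring)
    (by norm_num [D, B2, B3, B1, B0]) (by norm_num [D, B2, B3, B1, B0])
  · have : D B 0 x = (x - 10) * ((x - 28) * ((x + 1) ^ 2 + 23)) := by simp [D, B]; ring
    have q : (x + 1) ^ 2 + 23 ≠ 0 := by positivity
    rw [this]; simp [sub_eq_zero, q]
  · have : D B 1 x = 4 * ((x - 1) * ((x - 4) * (x - 22))) := by simp [D, B]; ring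
    rw [this]; simp [sub_eq_zero]

theorem fac (a : Fin 4 → ℝ) {u v w : ℝ} (h1 : u ≠ v) (h2 : u ≠ w) (h3 : v ≠ w) (eu : D a 1 u = 0)
    (ev : D a 1 v = 0) (ew : D a 1 w = 0) :
    a 3 = -4 / 3 * (u + v + w) ∧ a 2 = 2 * (u * v + u * w + v * w) ∧ a 1 = -4 * (u * v * w) := by
  simp only [D] at eu ev ew
  have e1 : 4 * (u ^ 2 + u * v + v ^ 2) + 3 * a 3 * (u + v) + 2 * a 2 = 0 :=
    mul_left_cancel₀ (sub_ne_zero.2 h1) (by linear_combination eu - ev)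
  have e2 : 4 * (u ^ 2 + u * w + w ^ 2) + 3 * a 3 * (u + w) + 2 * a 2 = 0 :=
    mul_left_cancel₀ (sub_ne_zero.2 h2) (by linear_combination eu - ew)
  have e3 : 4 * (u + v + w) + 3 * a 3 = 0 :=
    mul_left_cancel₀ (sub_ne_zero.2 h3) (by linear_combination e1 - e2)
  refine ⟨by linear_combination e3 / 3, by linear_combination e1 / 2 - (u + v) / 2 * e3, ?_⟩
  linear_combination eu - u * e1 + u * v * e3

theorem struct {a : Fin 4 → ℝ} (h : a ∈ R4 tau) : ∃ c1 c2 c3 : ℝ, c1 < c2 ∧ c2 < c3 ∧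
    a 3 = -4 / 3 * (c1 + c2 + c3) ∧ a 2 = 2 * (c1 * c2 + c1 * c3 + c2 * c3) ∧
    a 1 = -4 * (c1 * c2 * c3) := by
  obtain ⟨u, v, w, h1, h2, h3, e⟩ := Set.ncard_eq_three.1 (((mem_iff a).1 h).2 1).2.1
  have m : ∀ x ∈ ({u, v, w} : Set ℝ), D a 1 x = 0 := fun x hx => (e ▸ hx : x ∈ {x : ℝ | 0 < x ∧ D a 1 x = 0}).2
  obtain ⟨f1, f2, f3⟩ := fac a h1 h2 h3 (m u (by simp)) (m v (by simp)) (m w (by simp))
  rcases lt_or_gt_of_ne h1 with a1 | a1 <;> rcases lt_or_gt_of_ne h2 with a2 | a2 <;>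
    rcases lt_or_gt_of_ne h3 with a3 | a3
  · exact ⟨u, v, w, a1, a3, f1, f2, f3⟩
  · exact ⟨u, w, v, a2, a3, by linarith, by linarith, by linarith⟩
  · linarith
  · exact ⟨w, u, v, a2, a1, by linarith, by linarith, by linarith⟩
  · exact ⟨v, u, w, a1, a2, by linarith, by linarith, by linarith⟩
  · linarith
  · exact ⟨v, w, u, a3, a2, by linarith, by linarith, by linarith⟩
  · exact ⟨w, v, u, a3, a1, by linarith, by linarith, by linarith⟩

def U : Set (Fin 4 → ℝ) := {a | ∃ s t w, (s < t ∧ t < w) ∧ D a 0 s < 0 ∧ 0 < D a 0 t ∧ D a 1 w < 0}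
def V : Set (Fin 4 → ℝ) := {a | ∃ u w, u < w ∧ 0 < D a 1 u ∧ D a 1 w < 0 ∧ D a 0 w < 0}

theorem sep {a : Fin 4 → ℝ} (h : a ∈ R4 tau) : (a ∈ U ∨ a ∈ V) ∧ ¬ (a ∈ U ∧ a ∈ V) := by
  obtain ⟨c1, c2, c3, l1, l2, f3, f2, f1⟩ := struct h
  obtain ⟨hne, hl⟩ := (mem_iff a).1 h
  obtain ⟨sim, pos, neg⟩ := hl 0
  have sim' : ∀ x, D a 0 x = 0 → ¬ D a 1 x = 0 := sim
  have pos' : {x : ℝ | 0 < x ∧ D a 0 x = 0}.ncard = 2 := pos
  have g : ∀ x, D a 1 x = 4 * ((x - c1) * (x - c2) * (x - c3)) := fun x => by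
    simp only [D, f1, f2, f3]; ring
  have cf : Continuous (D a 0) := by unfold D; fun_prop
  have e3 : ∀ x, D a 0 x = D a 0 c3 + (x - c3) ^ 2 * ((x - c3) ^ 2 +
      4 / 3 * ((c3 - c1) + (c3 - c2)) * (x - c3) + 2 * (c3 - c1) * (c3 - c2)) := fun x => by
    simp only [D, f1, f2, f3]; ring
  have m3 : ∀ x, c2 ≤ x → D a 0 c3 ≤ D a 0 x := fun x hx => by
    rw [e3 x]
    refine le_add_of_nonneg_right (mul_nonneg (sq_nonneg _) ?_)
    nlinarith [mul_nonneg (sub_nonneg.2 hx) (sub_pos.2 l1).le, mul_nonneg (sub_nonneg.2 hx) (sub_pos.2 l2).le,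
      mul_pos (sub_pos.2 l1) (sub_pos.2 l2), sq_nonneg (x - c2), sq_nonneg (c3 - c2)]
  have m1 : ∀ x, x ≤ c2 → D a 0 c1 ≤ D a 0 x := fun x hx => by
    have : D a 0 x = D a 0 c1 + (x - c1) ^ 2 * ((x - c1) ^ 2 -
        4 / 3 * ((c3 - c1) + (c2 - c1)) * (x - c1) + 2 * (c3 - c1) * (c2 - c1)) := by
      simp only [D, f1, f2, f3]; ring
    rw [this]
    refine le_add_of_nonneg_right (mul_nonneg (sq_nonneg _) ?_)
    nlinarith [mul_nonneg (sub_nonneg.2 hx) (sub_pos.2 l1).le, mul_nonneg (sub_nonneg.2 hx) (sub_pos.2 l2).le,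
      mul_pos (sub_pos.2 l1) (sub_pos.2 l2), sq_nonneg (x - c2), sq_nonneg (c2 - c1)]
  have gm : ∀ w, c2 < w → w < c3 → D a 1 w < 0 := fun w a1 a2 => by
    rw [g]; nlinarith [mul_pos (mul_pos (sub_pos.2 (l1.trans a1)) (sub_pos.2 a1)) (sub_pos.2 a2)]
  have n3 : D a 0 c3 ≠ 0 := fun z => sim' c3 z (by rw [g]; ring)
  have n1 : D a 0 c1 ≠ 0 := fun z => sim' c1 z (by rw [g]; ring)
  constructor
  · rcases lt_or_gt_of_ne n3 with F | F
    · right
      have : ∀ᶠ w in 𝓝[<] c3, D a 0 w < 0 ∧ w ∈ Set.Ioo c2 c3 :=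
        ((cf.continuousAt.eventually (gt_mem_nhds F)).filter_mono nhdsWithin_le_nhds).and
          (Ioo_mem_nhdsLT l2)
      obtain ⟨w, w1, w2⟩ := this.exists
      refine ⟨(c1 + c2) / 2, w, by linarith [w2.1], ?_, gm w w2.1 w2.2, w1⟩
      rw [g]
      have := mul_pos (mul_pos (sub_pos.2 l1) (sub_pos.2 l1)) (by linarith : 0 < c3 - (c1 + c2) / 2)
      nlinarith
    · left
      obtain ⟨r, hr⟩ := Set.nonempty_of_ncard_ne_zero (s := {x : ℝ | 0 < x ∧ D a 0 x = 0})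
        (by rw [pos']; norm_num)
      have r2 : r ≤ c2 := by
        by_contra z; linarith [m3 r (not_le.1 z).le, hr.2]
      exact ⟨c1, c2, (c2 + c3) / 2, ⟨l1, by linarith⟩,
        lt_of_le_of_ne (hr.2 ▸ m1 r r2) n1, F.trans_le (m3 c2 le_rfl), gm _ (by linarith) (by linarith)⟩
  · rintro ⟨⟨s, t, w, ⟨st, tw⟩, fs, ft, gw⟩, u, z, uz, gu, gz, fz⟩
    have w3 : w < c3 := by
      by_contra q
      have q := not_lt.1 q
      rw [g] at gw
      nlinarith [mul_nonneg (mul_nonneg (by linarith : 0 ≤ w - c1) (by linarith : 0 ≤ w - c2)) (sub_nonneg.2 q)]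
    have z2 : c2 ≤ z := by
      by_contra q
      have q := not_le.1 q
      rw [g] at gu gz
      rcases le_total z c1 with b | b
      · nlinarith [mul_pos (mul_pos (by linarith : 0 < c1 - u) (by linarith : 0 < c2 - u)) (by linarith : 0 < c3 - u)]
      · nlinarith [mul_nonneg (mul_nonneg (sub_nonneg.2 b) (by linarith : 0 ≤ c2 - z)) (by linarith : 0 ≤ c3 - z)]
    have F : D a 0 c3 < 0 := (m3 z z2).trans_lt fz
    have M : 0 < D a 0 (c3 + (1 - D a 0 c3)) := by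
      rw [e3]
      set y := 1 - D a 0 c3 with hy
      have y1 : 1 < y := by linarith
      have : c3 + y - c3 = y := by ring
      rw [this]
      have b1 : 1 ≤ y ^ 2 + 4 / 3 * ((c3 - c1) + (c3 - c2)) * y + 2 * (c3 - c1) * (c3 - c2) := by
        nlinarith [mul_pos (sub_pos.2 (l1.trans l2)) (sub_pos.2 l2), mul_pos (by linarith : 0 < (c3 - c1) + (c3 - c2)) (by linarith : 0 < y)]
      nlinarith [mul_le_mul_of_nonneg_left b1 (sq_nonneg y)]
    obtain ⟨x1, i1, z1⟩ := intermediate_value_Ioo st.le cf.continuousOn ⟨fs, ft⟩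
    obtain ⟨x2, i2, z2⟩ := intermediate_value_Ioo' (tw.trans w3).le cf.continuousOn ⟨F, ft⟩
    obtain ⟨x3, i3, z3⟩ := intermediate_value_Ioo (by linarith : c3 ≤ c3 + (1 - D a 0 c3))
      cf.continuousOn ⟨F, M⟩
    have fin : {x : ℝ | x < 0 ∧ D a 0 x = 0}.Finite := by
      refine (poly a).rootSet_finite ℝ |>.subset fun x hx => ?_
      refine (mem_rootSet_of_ne ?_).2 (by simpa using (ev a 0 (by norm_num) x).2 hx.2)
      intro z
      exact n3 ((ev a 0 (by norm_num) c3).1 (by simp [z]))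
    have emp : {x : ℝ | x < 0 ∧ D a 0 x = 0} = ∅ := (Set.ncard_eq_zero fin).1 neg
    have p1 : 0 < x1 := by
      rcases lt_trichotomy x1 0 with q | q | q
      · exact absurd ⟨q, z1⟩ (Set.eq_empty_iff_forall_notMem.1 emp x1)
      · rw [q] at z1; exact absurd (by simpa [D] using z1) (hne 0)
      · exact q
    have sub : ({x1, x2, x3} : Set ℝ) ⊆ {x : ℝ | 0 < x ∧ D a 0 x = 0} := by
      rintro x (rfl | rfl | rfl)
      exacts [⟨p1, z1⟩, ⟨by linarith [i1.2, i2.1], z2⟩, ⟨by linarith [i1.2, i2.1, i2.2, i3.1], z3⟩]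
    have := Set.ncard_le_ncard sub (Set.finite_of_ncard_ne_zero (by rw [pos']; norm_num))
    rw [pos', Set.ncard_eq_three.2 ⟨x1, x2, x3, by linarith [i1.2, i2.1] |> ne_of_lt,
      by linarith [i1.2, i2.1, i2.2, i3.1] |> ne_of_lt, by linarith [i2.2, i3.1] |> ne_of_lt, rfl⟩] at this
    omega

theorem result : ∃ (d : ℕ) (τ : Fin d → ℕ × ℕ), 1 ≤ d ∧ (R4 τ).Nonempty ∧ ¬ IsConnected (R4 τ) := by
  refine ⟨4, tau, by norm_num, ⟨A, A_mem⟩, fun h => ?_⟩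
  have c : ∀ l x, Continuous fun a : Fin 4 → ℝ => D a l x := fun l x => by
    rcases l with _ | _ | _ | _ | l <;> simp only [D] <;> fun_prop
  have oU : IsOpen U := by
    simp only [U, Set.setOf_exists, Set.setOf_and]
    exact isOpen_iUnion fun s => isOpen_iUnion fun t => isOpen_iUnion fun w =>
      (isOpen_const.inter isOpen_const).inter
      ((isOpen_lt (c 0 s) continuous_const).inter ((isOpen_lt continuous_const (c 0 t)).inter
        (isOpen_lt (c 1 w) continuous_const)))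
  have oV : IsOpen V := by
    simp only [V, Set.setOf_exists, Set.setOf_and]
    exact isOpen_iUnion fun u => isOpen_iUnion fun w => isOpen_const.inter
      ((isOpen_lt continuous_const (c 1 u)).inter ((isOpen_lt (c 1 w) continuous_const).inter
        (isOpen_lt (c 0 w) continuous_const)))
  obtain ⟨a, ha, hb⟩ := h.2 U V oU oV (fun a ha => (sep ha).1)
    ⟨A, A_mem, 7, 20, 26, by norm_num, by norm_num [D, A2, A3, A1, A0], by norm_num [D, A2, A3, A1, A0], by norm_num [D, A2, A3, A1, A0]⟩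
    ⟨B, B_mem, 2, 20, by norm_num, by norm_num [D, B2, B3, B1, B0], by norm_num [D, B2, B3, B1, B0], by norm_num [D, B2, B3, B1, B0]⟩
  exact (sep ha).2 hb

end Pool.Agent.Results.MP_5207c4_ag.Q1
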